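import Mathlib

/-!
# Isoperimetry for finite groups: the group lemma

`S` is a finite subset of a finite group such that no product of at most three elements of `S`
is `1`.  If `X`, `Y` have more than a third of the elements and `X ∪ X S` misses `Y`, then
`3 |X| + 3 |Y| + 6 |S| < 4 |G|`.
-/

set_option autoImplicit false

open Finset
open scoped Pointwise

namespace Pool.Agent.H41CH

variable {G : Type*} [Group G] [DecidableEq G]

/-- a finite subgroup, as a finset -/
structure IsSub (K : Finset G) : Prop where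
  one : (1 : G) ∈ K
  mul : ∀ a ∈ K, ∀ b ∈ K, a * b ∈ K
  inv : ∀ a ∈ K, a⁻¹ ∈ K

/-- no product of at most three elements is `1` -/
structure Free (S : Finset G) : Prop where
  one : (1 : G) ∉ S
  two : ∀ a ∈ S, ∀ b ∈ S, a * b ≠ 1
  three : ∀ a ∈ S, ∀ b ∈ S, ∀ c ∈ S, a * b * c ≠ 1

/-- `S` with `1` added -/
def T (S : Finset G) : Finset G := insert 1 S

omit [DecidableEq G] in
theorem IsSub.nonempty {K : Finset G} (hK : IsSub K) : K.Nonempty := ⟨1, hK.one⟩

omit [DecidableEq G] in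
theorem IsSub.card_pos {K : Finset G} (hK : IsSub K) : 0 < #K := hK.nonempty.card_pos

omit [DecidableEq G] in
/-- cancelling on the left in a subgroup -/
theorem IsSub.cancel {K : Finset G} (hK : IsSub K) {a b : G} (ha : a ∈ K) (hab : a * b ∈ K) :
    b ∈ K := by
  have h := hK.mul _ (hK.inv a ha) _ hab
  rwa [inv_mul_cancel_left] at h

theorem one_mem_T (S : Finset G) : (1 : G) ∈ T S := mem_insert_self _ _

theorem mem_T_of_mem {S : Finset G} {a : G} (h : a ∈ S) : a ∈ T S := mem_insert_of_mem h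

theorem T_inv (S : Finset G) : (T S)⁻¹ = T S⁻¹ := by
  unfold T
  ext x
  simp only [mem_inv', mem_insert]
  rw [inv_eq_one]

theorem T_sub {K S : Finset G} (hK : IsSub K) (hS : S ⊆ K) : T S ⊆ K := by
  intro x hx
  rcases mem_insert.1 hx with rfl | h
  · exact hK.one
  · exact hS h

theorem mul_sub {K A B : Finset G} (hK : IsSub K) (hA : A ⊆ K) (hB : B ⊆ K) : A * B ⊆ K := by
  intro x hx
  obtain ⟨a, ha, b, hb, rfl⟩ := mem_mul.1 hx
  exact hK.mul a (hA ha) b (hB hb)

theorem smul_sub {K A : Finset G} (hK : IsSub K) {g : G} (hg : g ∈ K) (hA : A ⊆ K) :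
    g • A ⊆ K := by
  intro x hx
  obtain ⟨a, ha, rfl⟩ := mem_smul_finset.1 hx
  exact hK.mul g hg a (hA ha)

theorem sub_mul_T (Z S : Finset G) : Z ⊆ Z * T S := by
  intro z hz
  exact mem_mul.2 ⟨z, hz, 1, one_mem_T S, mul_one z⟩

theorem inv_sub {K S : Finset G} (hK : IsSub K) (hS : S ⊆ K) : S⁻¹ ⊆ K := by
  intro x hx
  have h := hK.inv _ (hS (mem_inv'.1 hx))
  rwa [inv_inv] at h

theorem Free.inv {S : Finset G} (h : Free S) : Free S⁻¹ := by
  refine ⟨?_, ?_, ?_⟩
  · intro h1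
    rw [mem_inv', inv_one] at h1
    exact h.one h1
  · intro a ha b hb hab
    rw [mem_inv'] at ha hb
    apply h.two _ hb _ ha
    rw [← mul_inv_rev, hab, inv_one]
  · intro a ha b hb c hc habc
    rw [mem_inv'] at ha hb hc
    apply h.three _ hc _ hb _ ha
    have : c⁻¹ * b⁻¹ * a⁻¹ = (a * b * c)⁻¹ := by
      rw [mul_inv_rev, mul_inv_rev, mul_assoc]
    rw [this, habc, inv_one]

omit [DecidableEq G] in
theorem Free.mono {S S' : Finset G} (h : Free S) (hS : S' ⊆ S) : Free S' :=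
  ⟨fun h1 => h.one (hS h1), fun a ha b hb => h.two a (hS ha) b (hS hb),
    fun a ha b hb c hc => h.three a (hS ha) b (hS hb) c (hS hc)⟩

theorem T_card {S : Finset G} (h : Free S) : #(T S) = #S + 1 := card_insert_of_notMem h.one

theorem T_ne {K S : Finset G} (hK : IsSub K) (hF : Free S) (hc : 2 ≤ #K) : T S ≠ K := by
  intro h
  obtain ⟨a, ha, ha1⟩ := exists_mem_ne (by omega : 1 < #K) 1
  have haS : a ∈ S := by
    have := h ▸ ha
    rcases mem_insert.1 (h.symm ▸ ha : a ∈ T S) with h1 | h1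
    · exact absurd h1 ha1
    · exact h1
  have hbS : a⁻¹ ∈ S := by
    rcases mem_insert.1 (h.symm ▸ hK.inv a ha : a⁻¹ ∈ T S) with h1 | h1
    · exact absurd (inv_eq_one.1 h1) ha1
    · exact h1
  exact hF.two a haS _ hbS (mul_inv_cancel a)

/-! ### Divisibility -/

theorem dvd_of_left {H : Finset G} (hH : IsSub H) (Z : Finset G)
    (hZ : ∀ h ∈ H, ∀ z ∈ Z, h * z ∈ Z) : #H ∣ #Z := by
  induction hn : #Z using Nat.strong_induction_on generalizing Z with
  | _ n ih =>
    rcases Z.eq_empty_or_nonempty with rfl | ⟨z, hz⟩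
    · rw [card_empty] at hn
      rw [← hn]
      exact dvd_zero _
    · set C : Finset G := H.image (fun h => h * z) with hC
      have hCZ : C ⊆ Z := by
        intro x hx
        rw [hC, mem_image] at hx
        obtain ⟨h, hh, rfl⟩ := hx
        exact hZ h hh z hz
      have hCc : #C = #H := card_image_of_injective _ (mul_left_injective z)
      have hcard : #(Z \ C) + #C = #Z := card_sdiff_add_card_eq_card hCZ
      have hpos := hH.card_pos
      have hd : #H ∣ #(Z \ C) := by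
        refine ih (#(Z \ C)) (by omega) (Z \ C) ?_ rfl
        intro h hh x hx
        rw [mem_sdiff] at hx ⊢
        refine ⟨hZ h hh x hx.1, ?_⟩
        intro hxC
        apply hx.2
        rw [hC, mem_image] at hxC ⊢
        obtain ⟨h', hh', he⟩ := hxC
        refine ⟨h⁻¹ * h', hH.mul _ (hH.inv h hh) _ hh', ?_⟩
        rw [mul_assoc, he, inv_mul_cancel_left]
      rw [← hn, ← hcard, hCc]
      exact dvd_add hd dvd_rfl

theorem dvd_of_right {H : Finset G} (hH : IsSub H) (Z : Finset G)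
    (hZ : ∀ h ∈ H, ∀ z ∈ Z, z * h ∈ Z) : #H ∣ #Z := by
  have h := dvd_of_left hH Z⁻¹ (by
    intro h hh z hz
    rw [mem_inv'] at hz ⊢
    rw [mul_inv_rev]
    exact hZ _ (hH.inv h hh) _ hz)
  rwa [card_inv] at h

/-! ### Submodularity and atoms -/

theorem submod (A Z Z' : Finset G) :
    #((Z ∪ Z') * A) + #((Z ∩ Z') * A) ≤ #(Z * A) + #(Z' * A) := by
  rw [union_mul, ← card_union_add_card_inter (Z * A) (Z' * A)]
  exact Nat.add_le_add_left (card_le_card inter_mul_subset) _

/-- the boundary of `Z` has at least `k` elements -/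
def Conn (K A : Finset G) (k : ℕ) : Prop :=
  ∀ Z ⊆ K, Z.Nonempty → Z * A ≠ K → #Z + k ≤ #(Z * A)

/-- fragments -/
structure Frag (K A : Finset G) (k : ℕ) (Z : Finset G) : Prop where
  le : Z ⊆ K
  nonempty : Z.Nonempty
  ne : Z * A ≠ K
  card : #(Z * A) = #Z + k

theorem mul_inv_disj {A Z : Finset G} {K : Finset G} :
    Disjoint ((K \ (Z * A)) * A⁻¹) Z := by
  rw [disjoint_left]
  intro x hx hxZ
  obtain ⟨w, hw, a, ha, rfl⟩ := mem_mul.1 hx
  rw [mem_inv'] at ha
  rw [mem_sdiff] at hw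
  apply hw.2
  refine mem_mul.2 ⟨w * a, hxZ, a⁻¹, ha, ?_⟩
  rw [mul_inv_cancel_right]

theorem Conn.dual {K A : Finset G} {k : ℕ} (hK : IsSub K) (hA : A ⊆ K) (h : Conn K A k) :
    Conn K A⁻¹ k := by
  intro W hW hWn hWne
  have hWA : W * A⁻¹ ⊆ K := mul_sub hK hW (inv_sub hK hA)
  set Z := K \ (W * A⁻¹) with hZ
  have hZK : Z ⊆ K := sdiff_subset
  have hZn : Z.Nonempty := by
    rw [hZ, sdiff_nonempty]
    intro h1
    exact hWne (hWA.antisymm h1)
  have hdis : Disjoint (Z * A) W := by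
    have := mul_inv_disj (A := A⁻¹) (Z := W) (K := K)
    rwa [inv_inv] at this
  have hZA : Z * A ⊆ K := mul_sub hK hZK hA
  have hne : Z * A ≠ K := by
    intro h1
    obtain ⟨w, hw⟩ := hWn
    exact disjoint_left.1 hdis (h1 ▸ hW hw) hw
  have h1 := h Z hZK hZn hne
  have h2 : #(Z * A) + #W ≤ #K := by
    rw [← card_union_of_disjoint hdis]
    exact card_le_card (union_subset hZA hW)
  have h3 : #Z + #(W * A⁻¹) = #K := card_sdiff_add_card_eq_card hWA
  omega

theorem Frag.dual {K A : Finset G} {k : ℕ} (hK : IsSub K) (hA : A ⊆ K) (h : Conn K A k)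
    {Z : Finset G} (hZ : Frag K A k Z) : Frag K A⁻¹ k (K \ (Z * A)) := by
  have hZA : Z * A ⊆ K := mul_sub hK hZ.le hA
  have hn : (K \ (Z * A)).Nonempty := by
    rw [sdiff_nonempty]
    intro h1
    exact hZ.ne (hZA.antisymm h1)
  have hWA : (K \ (Z * A)) * A⁻¹ ⊆ K := mul_sub hK sdiff_subset (inv_sub hK hA)
  have hdis := mul_inv_disj (A := A) (Z := Z) (K := K)
  have hne : (K \ (Z * A)) * A⁻¹ ≠ K := by
    intro h1
    obtain ⟨z, hz⟩ := hZ.nonempty
    exact disjoint_left.1 hdis (by rw [h1]; exact hZ.le hz) hz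
  refine ⟨sdiff_subset, hn, hne, ?_⟩
  have h1 := (h.dual hK hA) _ sdiff_subset hn hne
  have h2 : #((K \ (Z * A)) * A⁻¹) + #Z ≤ #K := by
    rw [← card_union_of_disjoint hdis]
    exact card_le_card (union_subset hWA hZ.le)
  have h3 : #(K \ (Z * A)) + #(Z * A) = #K := card_sdiff_add_card_eq_card hZA
  have h4 := hZ.card
  omega

theorem Frag.smul {K A : Finset G} {k : ℕ} (hK : IsSub K) {Z : Finset G} (hZ : Frag K A k Z)
    {g : G} (hg : g ∈ K) : Frag K A k (g • Z) := by
  refine ⟨smul_sub hK hg hZ.le, hZ.nonempty.smul_finset, ?_, ?_⟩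
  · intro h
    apply hZ.ne
    have h1 : Z * A = g⁻¹ • K := by
      rw [← h, smul_mul_assoc, inv_smul_smul]
    rw [h1]
    ext x
    rw [mem_smul_finset]
    constructor
    · rintro ⟨y, hy, rfl⟩
      exact hK.mul _ (hK.inv g hg) _ hy
    · intro hx
      exact ⟨g * x, hK.mul g hg x hx, by rw [smul_eq_mul, inv_mul_cancel_left]⟩
  · rw [smul_mul_assoc, card_smul_finset, card_smul_finset, hZ.card]

theorem atom_aux {K A : Finset G} {k : ℕ} (hK : IsSub K) (hA : A ⊆ K) (h : Conn K A k)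
    {Z₀ : Finset G} (hZ₀ : Frag K A k Z₀)
    (hmin : ∀ Z, Frag K A k Z ∨ Frag K A⁻¹ k Z → #Z₀ ≤ #Z) :
    ∃ H, IsSub H ∧ Frag K A k H := by
  obtain ⟨z₀, hz₀⟩ := hZ₀.nonempty
  set Z := z₀⁻¹ • Z₀ with hZdef
  have hZ : Frag K A k Z := hZ₀.smul hK (hK.inv _ (hZ₀.le hz₀))
  have hcard : #Z = #Z₀ := card_smul_finset _ _
  have h1Z : (1 : G) ∈ Z := by
    rw [hZdef, mem_smul_finset]
    exact ⟨z₀, hz₀, by rw [smul_eq_mul, inv_mul_cancel]⟩
  have key : ∀ g ∈ Z, g⁻¹ • Z = Z := by
    intro g hg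
    by_contra hne
    have hgK : g ∈ K := hZ.le hg
    have hZ' : Frag K A k (g⁻¹ • Z) := hZ.smul hK (hK.inv g hgK)
    have hcard' : #(g⁻¹ • Z) = #Z := card_smul_finset _ _
    set I := Z ∩ g⁻¹ • Z with hI
    set U := Z ∪ g⁻¹ • Z with hU
    have h1I : (1 : G) ∈ I := by
      rw [hI, mem_inter]
      refine ⟨h1Z, ?_⟩
      rw [mem_smul_finset]
      exact ⟨g, hg, by rw [smul_eq_mul, inv_mul_cancel]⟩
    have hIlt : #I < #Z := by
      apply card_lt_card
      rw [Finset.ssubset_iff_subset_ne]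
      refine ⟨inter_subset_left, ?_⟩
      intro h1
      apply hne
      symm
      apply eq_of_subset_of_card_le
      · exact h1.symm.subset.trans inter_subset_right
      · exact hcard'.le
    have hIK : I ⊆ K := inter_subset_left.trans hZ.le
    have hZAK : Z * A ⊆ K := mul_sub hK hZ.le hA
    have hIA : I * A ≠ K := by
      intro h1
      apply hZ.ne
      apply hZAK.antisymm
      rw [← h1]
      exact mul_subset_mul_right inter_subset_left
    have hI1 := h I hIK ⟨1, h1I⟩ hIA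
    have hI2 : #(I * A) ≠ #I + k := by
      intro h1
      have := hmin I (Or.inl ⟨hIK, ⟨1, h1I⟩, hIA, h1⟩)
      omega
    have hsub := submod A Z (g⁻¹ • Z)
    rw [← hI, ← hU, hZ.card, hZ'.card, hcard'] at hsub
    have hUI : #U + #I = #Z + #Z := by
      have h0 := card_union_add_card_inter Z (g⁻¹ • Z)
      rw [hcard'] at h0
      exact h0
    have hUK : U ⊆ K := union_subset hZ.le hZ'.le
    by_cases hUA : U * A = K
    · have hW := hmin _ (Or.inr (Frag.dual hK hA h hZ))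
      have h3 : #(K \ (Z * A)) + #(Z * A) = #K := card_sdiff_add_card_eq_card hZAK
      have h4 := hZ.card
      rw [hUA] at hsub
      omega
    · have hU1 := h U hUK (hZ.nonempty.mono subset_union_left) hUA
      omega
  refine ⟨Z, ⟨h1Z, ?_, ?_⟩, hZ⟩
  · intro a ha b hb
    have h1 : Z = a • Z := by
      have h2 := key a ha
      conv_rhs => rw [← h2]
      rw [smul_inv_smul]
    rw [h1, mem_smul_finset]
    exact ⟨b, hb, rfl⟩
  · intro a ha
    rw [← key a ha, mem_smul_finset]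
    exact ⟨1, h1Z, by rw [smul_eq_mul, mul_one]⟩

/-- `H` is an atom and a subgroup -/
structure Atom (K S : Finset G) (k : ℕ) (H : Finset G) : Prop where
  sub : IsSub H
  frag : Frag K (T S) k H
  conn : Conn K (T S) k
  conn' : Conn K (T S⁻¹) k

theorem exists_atom {K S : Finset G} (hK : IsSub K) (hS : S ⊆ K)
    (h : ∃ Z ⊆ K, Z.Nonempty ∧ Z * T S ≠ K) :
    ∃ k H, Atom K S k H ∨ Atom K S⁻¹ k H := by
  classical
  have hA : T S ⊆ K := T_sub hK hS
  have hex : ∃ k, ∃ Z ⊆ K, Z.Nonempty ∧ Z * T S ≠ K ∧ #(Z * T S) = #Z + k := by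
    obtain ⟨Z, hZK, hZn, hZne⟩ := h
    refine ⟨#(Z * T S) - #Z, Z, hZK, hZn, hZne, ?_⟩
    have := card_le_card (sub_mul_T Z S)
    omega
  set k := Nat.find hex with hk
  obtain ⟨Z₁, hZ₁K, hZ₁n, hZ₁ne, hZ₁c⟩ := Nat.find_spec hex
  have hconn : Conn K (T S) k := by
    intro Z hZK hZn hZne
    have h1 := card_le_card (sub_mul_T Z S)
    have h2 : k ≤ #(Z * T S) - #Z :=
      Nat.find_min' hex ⟨Z, hZK, hZn, hZne, by omega⟩
    omega
  have hconn' : Conn K (T S)⁻¹ k := hconn.dual hK hA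
  have hex2 : ∃ n, ∃ Z, (Frag K (T S) k Z ∨ Frag K (T S)⁻¹ k Z) ∧ #Z = n :=
    ⟨_, Z₁, Or.inl ⟨hZ₁K, hZ₁n, hZ₁ne, hZ₁c⟩, rfl⟩
  obtain ⟨Z₀, hZ₀, hZ₀c⟩ := Nat.find_spec hex2
  have hmin : ∀ Z, Frag K (T S) k Z ∨ Frag K (T S)⁻¹ k Z → #Z₀ ≤ #Z := by
    intro Z hZ
    rw [hZ₀c]
    exact Nat.find_min' hex2 ⟨Z, hZ, rfl⟩
  rcases hZ₀ with hZ₀ | hZ₀
  · obtain ⟨H, hH, hHf⟩ := atom_aux hK hA hconn hZ₀ hmin
    refine ⟨k, H, Or.inl ⟨hH, hHf, hconn, ?_⟩⟩
    rw [← T_inv]
    exact hconn'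
  · obtain ⟨H, hH, hHf⟩ := atom_aux hK (inv_sub hK hA) hconn' hZ₀ (by
      intro Z hZ
      rw [inv_inv] at hZ
      exact hmin Z hZ.symm)
    refine ⟨k, H, Or.inr ⟨hH, ?_, ?_, ?_⟩⟩
    · rw [← T_inv]
      exact hHf
    · rw [← T_inv]
      exact hconn'
    · rw [inv_inv]
      exact hconn

/-! ### Numerical facts about an atom -/

theorem Atom.ne {K S H : Finset G} {k : ℕ} (hK : IsSub K) (hS : S ⊆ K) (h : Atom K S k H) :
    H ≠ K := by
  intro h1
  apply h.frag.ne
  rw [h1]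
  exact (mul_sub hK subset_rfl (T_sub hK hS)).antisymm (sub_mul_T K S)

theorem Atom.R_card {K S H : Finset G} {k : ℕ} (h : Atom K S k H) : #((H * T S) \ H) = k := by
  have h1 : #((H * T S) \ H) + #H = #(H * T S) := card_sdiff_add_card_eq_card (sub_mul_T H S)
  have h2 := h.frag.card
  omega

theorem Atom.R_inv {K S H : Finset G} {k : ℕ} (h : Atom K S k H) :
    ∀ a ∈ H, ∀ r ∈ (H * T S) \ H, a * r ∈ (H * T S) \ H := by
  intro a ha r hr
  rw [mem_sdiff] at hr ⊢
  obtain ⟨b, hb, t, ht, rfl⟩ := mem_mul.1 hr.1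
  refine ⟨mem_mul.2 ⟨a * b, h.sub.mul a ha b hb, t, ht, by rw [mul_assoc]⟩, ?_⟩
  intro h1
  exact hr.2 (h.sub.cancel ha h1)

theorem Atom.dvd {K S H : Finset G} {k : ℕ} (h : Atom K S k H) : #H ∣ k := by
  have h1 := dvd_of_left h.sub _ h.R_inv
  rwa [h.R_card] at h1

theorem Atom.dvd' {K S H : Finset G} {k : ℕ} (hK : IsSub K) (h : Atom K S k H) : #H ∣ #K :=
  dvd_of_left h.sub K fun a ha b hb => hK.mul a (h.frag.le ha) b hb

theorem sdiff_sub_R (S H : Finset G) (hH : IsSub H) : S \ H ⊆ (H * T S) \ H := by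
  intro x hx
  rw [mem_sdiff] at hx ⊢
  exact ⟨mem_mul.2 ⟨1, hH.one, x, mem_T_of_mem hx.1, one_mul x⟩, hx.2⟩

theorem Atom.card_le {K S H : Finset G} {k : ℕ} (h : Atom K S k H) : #S ≤ #(S ∩ H) + k := by
  have h1 : #(S \ H) ≤ k := by
    rw [← h.R_card]
    exact card_le_card (sdiff_sub_R S H h.sub)
  have h2 : #(S ∩ H) + #(S \ H) = #S := card_inter_add_card_sdiff S H
  omega

omit [DecidableEq G] in
theorem lt_card_of_dvd_ne {H K : Finset G} (hH : IsSub H) (hHK : H ⊆ K) (hne : H ≠ K)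
    (hd : #H ∣ #K) : 2 * #H ≤ #K := by
  have h1 : #H < #K := card_lt_card (Finset.ssubset_iff_subset_ne.2 ⟨hHK, hne⟩)
  obtain ⟨m, hm⟩ := hd
  have hpos := hH.card_pos
  have hm2 : 2 ≤ m := by
    by_contra hcon
    have : m = 0 ∨ m = 1 := by omega
    rcases this with rfl | rfl
    · omega
    · omega
  calc 2 * #H ≤ m * #H := Nat.mul_le_mul_right _ hm2
    _ = #K := by rw [hm, mul_comm]

/-- Hamidoune's theorem for groups, the inductive step at an atom. -/
theorem hamidoune_aux {K S H : Finset G} {k : ℕ} (hK : IsSub K) (hS : S ⊆ K) (hF : Free S)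
    (hA : Atom K S k H) (ih : 3 * #(S ∩ H) < #H) : 3 * #S < #K := by
  by_contra hcon
  push Not at hcon
  have hKpos := hK.card_pos
  have hSn : S.Nonempty := by
    rw [← card_pos]
    omega
  -- the pair `T S`, `S⁻¹`
  have hdis : Disjoint (T S * T S) S⁻¹ := by
    rw [disjoint_left]
    intro x hx hxS
    rw [mem_inv'] at hxS
    obtain ⟨a, ha, b, hb, rfl⟩ := mem_mul.1 hx
    rcases mem_insert.1 ha with rfl | ha
    · rcases mem_insert.1 hb with rfl | hb
      · apply hF.one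
        simpa using hxS
      · rw [one_mul] at hxS
        exact hF.two _ hxS _ hb (inv_mul_cancel b)
    · rcases mem_insert.1 hb with rfl | hb
      · rw [mul_one] at hxS
        exact hF.two _ hxS _ ha (inv_mul_cancel a)
      · apply hF.three _ hxS _ ha _ hb
        rw [mul_assoc, inv_mul_cancel]
  have hTK := T_sub hK hS
  have hTT : T S * T S ⊆ K := mul_sub hK hTK hTK
  have h1 : #(T S * T S) + #S ≤ #K := by
    rw [← card_inv S, ← card_union_of_disjoint hdis]
    exact card_le_card (union_subset hTT (inv_sub hK hS))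
  have h2 : T S * T S ≠ K := by
    intro h
    rw [h] at h1
    have := hSn.card_pos
    omega
  have h3 := hA.conn (T S) hTK ⟨1, one_mem_T S⟩ h2
  rw [T_card hF] at h3
  have h4 := hA.card_le
  obtain ⟨j, hj⟩ := hA.dvd
  obtain ⟨m, hm⟩ := hA.dvd' hK
  have hc := hA.sub.card_pos
  have h5 : #H * m < #H * (3 * j + 1) := by
    rw [← hm, mul_add, mul_one, mul_left_comm, ← hj]
    omega
  have h6 := Nat.lt_of_mul_lt_mul_left h5
  have h7 : #H * (3 * j) < #H * m := by
    rw [← hm, mul_left_comm, ← hj]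
    omega
  have h8 := Nat.lt_of_mul_lt_mul_left h7
  omega

/-- **Hamidoune's theorem** for groups (triangle case). -/
theorem hamidoune (n : ℕ) : ∀ K S : Finset G, IsSub K → S ⊆ K → Free S → #K = n →
    3 * #S < #K := by
  induction n using Nat.strong_induction_on with
  | _ n ih =>
    intro K S hK hS hF hn
    have hKpos := hK.card_pos
    by_cases hsmall : #K ≤ 1
    · have hS0 : S = ∅ := by
        rw [eq_empty_iff_forall_notMem]
        intro x hx
        have h1 : #K = 1 := by omega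
        obtain ⟨a, ha⟩ := card_eq_one.1 h1
        have h2 := hK.one
        have h3 := hS hx
        rw [ha, mem_singleton] at h2 h3
        exact hF.one (by rw [h2, ← h3]; exact hx)
      rw [hS0, card_empty]
      omega
    · have hT := T_ne hK hF (by omega)
      obtain ⟨k, H, hA⟩ := exists_atom hK hS
        ⟨{1}, by simpa using hK.one, singleton_nonempty 1, by rw [Finset.singleton_one, one_mul]; exact hT⟩
      rcases hA with hA | hA
      · have hne := hA.ne hK hS
        have hlt : #H < #K := card_lt_card (Finset.ssubset_iff_subset_ne.2 ⟨hA.frag.le, hne⟩)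
        exact hamidoune_aux hK hS hF hA
          (ih #H (by omega) H (S ∩ H) hA.sub inter_subset_right (hF.mono inter_subset_left) rfl)
      · have hS' := inv_sub hK hS
        have hne := hA.ne hK hS'
        have hlt : #H < #K := card_lt_card (Finset.ssubset_iff_subset_ne.2 ⟨hA.frag.le, hne⟩)
        have := hamidoune_aux hK hS' hF.inv hA
          (ih #H (by omega) H (S⁻¹ ∩ H) hA.sub inter_subset_right
            (hF.inv.mono inter_subset_left) rfl)
        rwa [card_inv] at this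

end Pool.Agent.H41CH
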