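import Mathlib
import Pool.Agent.Helper41_CH.Group

/-!
# The key lemma
-/

set_option autoImplicit false

open Finset
open scoped Pointwise

namespace Pool.Agent.H41CH

variable {G : Type*} [Group G] [DecidableEq G]

theorem kappa_bound {H S₀ H₂ : Finset G} {k₀ : ℕ} (hH : IsSub H) (hS : S₀ ⊆ H) (hF : Free S₀)
    (hA : Atom H S₀ k₀ H₂) : 6 * #S₀ < 6 * k₀ + #H := by
  have h1 := hA.card_le
  have h2 := hamidoune _ H₂ (S₀ ∩ H₂) hA.sub inter_subset_right (hF.mono inter_subset_left) rfl
  have h3 := lt_card_of_dvd_ne hA.sub hA.frag.le (hA.ne hH hS) (hA.dvd' hH)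
  omega

theorem slack_bound {H S₀ X' Y' : Finset G} (hH : IsSub H) (hS : S₀ ⊆ H) (hF : Free S₀)
    (hX : X' ⊆ H) (hY : Y' ⊆ H) (hXn : X'.Nonempty) (hYn : Y'.Nonempty)
    (hd : Disjoint (X' * T S₀) Y') : 6 * #X' + 6 * #Y' + 6 * #S₀ < 7 * #H := by
  have hXT : X' * T S₀ ⊆ H := mul_sub hH hX (T_sub hH hS)
  have hne : X' * T S₀ ≠ H := by
    intro h
    obtain ⟨y, hy⟩ := hYn
    exact disjoint_left.1 hd (by rw [h]; exact hY hy) hy
  have h2 : #(X' * T S₀) + #Y' ≤ #H := by
    rw [← card_union_of_disjoint hd]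
    exact card_le_card (union_subset hXT hY)
  obtain ⟨k₀, H₂, hA | hA⟩ := exists_atom hH hS ⟨X', hX, hXn, hne⟩
  · have h1 := hA.conn X' hX hXn hne
    have h3 := kappa_bound hH hS hF hA
    omega
  · have h1 := hA.conn'
    rw [inv_inv] at h1
    have h1 := h1 X' hX hXn hne
    have h3 := kappa_bound hH (inv_sub hH hS) hF.inv hA
    rw [card_inv] at h3
    omega

theorem loc_sub (g : G) (H X : Finset G) : g⁻¹ • (X ∩ g • H) ⊆ H := by
  intro x hx
  rw [mem_smul_finset] at hx
  obtain ⟨y, hy, rfl⟩ := hx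
  rw [mem_inter, mem_smul_finset] at hy
  obtain ⟨-, h, hh, rfl⟩ := hy
  rwa [inv_smul_smul]

theorem loc_disj {S X Y H : Finset G} (hd : Disjoint (X * T S) Y) (g : G) :
    Disjoint ((g⁻¹ • (X ∩ g • H)) * T (S ∩ H)) (g⁻¹ • (Y ∩ g • H)) := by
  rw [disjoint_left]
  intro w hw hwY
  obtain ⟨a, ha, t, ht, rfl⟩ := mem_mul.1 hw
  rw [mem_smul_finset] at ha hwY
  obtain ⟨x, hx, rfl⟩ := ha
  obtain ⟨y, hy, hxy⟩ := hwY
  rw [mem_inter] at hx hy
  apply disjoint_left.1 hd _ hy.1
  refine mem_mul.2 ⟨x, hx.1, t, ?_, ?_⟩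
  · rcases mem_insert.1 ht with rfl | ht
    · exact one_mem_T S
    · exact mem_T_of_mem (mem_inter.1 ht).1
  · simp only [smul_eq_mul] at hxy
    rw [mul_assoc] at hxy
    exact (mul_left_cancel hxy).symm

theorem coset_disj {H : Finset G} (hH : IsSub H) {g₁ g₂ : G} (h : g₂ ∉ g₁ • H) :
    Disjoint (g₁ • H) (g₂ • H) := by
  rw [disjoint_left]
  intro x hx hx2
  rw [mem_smul_finset] at hx hx2
  obtain ⟨a, ha, rfl⟩ := hx
  obtain ⟨b, hb, hab⟩ := hx2
  apply h
  rw [mem_smul_finset]
  refine ⟨a * b⁻¹, hH.mul a ha _ (hH.inv b hb), ?_⟩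
  simp only [smul_eq_mul] at hab ⊢
  rw [← mul_assoc, ← hab, mul_inv_cancel_right]

theorem key_aux {K S X Y H : Finset G} {k : ℕ} (hK : IsSub K) (hS : S ⊆ K) (hF : Free S)
    (hX : X ⊆ K) (hY : Y ⊆ K) (hd : Disjoint (X * T S) Y) (hXc : #K < 3 * #X)
    (hYc : #K < 3 * #Y) (hA : Atom K S k H)
    (ih : ∀ S' X' Y' : Finset G, S' ⊆ H → Free S' → X' ⊆ H → Y' ⊆ H →
      Disjoint (X' * T S') Y' → #H < 3 * #X' → #H < 3 * #Y' →
      3 * #X' + 3 * #Y' + 6 * #S' < 4 * #H) :
    3 * #X + 3 * #Y + 6 * #S < 4 * #K := by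
  by_contra hcon
  push Not at hcon
  have hH := hA.sub
  have hc := hH.card_pos
  have hTK := T_sub hK hS
  have hXT : X * T S ⊆ K := mul_sub hK hX hTK
  have hXY : Disjoint X Y := disjoint_of_subset_left (sub_mul_T X S) hd
  have hXn : X.Nonempty := by rw [← card_pos]; omega
  have hYn : Y.Nonempty := by rw [← card_pos]; omega
  set s := #(S ∩ H) with hs
  set R := (H * T S) \ H with hR
  have hRc : #R = k := hA.R_card
  have hRinv := hA.R_inv
  rw [← hR] at hRinv
  have hHK := hA.frag.le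
  have hRK : R ⊆ K := sdiff_subset.trans (mul_sub hK hHK hTK)
  -- the elements of `R` outside `S`
  set e := #(R \ S) with he
  have E1 : e + #S = k + s := by
    have h1 : R \ S = R \ (S \ H) := by
      ext x
      simp only [mem_sdiff, not_and, not_not]
      constructor
      · rintro ⟨h1, h2⟩
        exact ⟨h1, fun h3 => absurd h3 h2⟩
      · rintro ⟨h1, h2⟩
        refine ⟨h1, fun h3 => ?_⟩
        rw [hR, mem_sdiff] at h1
        exact h1.2 (h2 h3)
    have h2 : #(R \ (S \ H)) + #(S \ H) = #R :=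
      card_sdiff_add_card_eq_card (sdiff_sub_R S H hH)
    have h3 : #(S ∩ H) + #(S \ H) = #S := card_inter_add_card_sdiff S H
    rw [he, h1]
    omega
  have E2 : #(X * T S) + #Y ≤ #K := by
    rw [← card_union_of_disjoint hd]
    exact card_le_card (union_subset hXT hY)
  have hXTne : X * T S ≠ K := by
    intro h
    rw [h] at E2
    have := hYn.card_pos
    omega
  have E2' := hA.conn X hX hXn hXTne
  have E3 : 3 * #S < #K := hamidoune _ K S hK hS hF rfl
  have E4 : 3 * s < #H :=
    hamidoune _ H (S ∩ H) hH inter_subset_right (hF.mono inter_subset_left) rfl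
  obtain ⟨j, hj⟩ := hA.dvd
  obtain ⟨m, hm⟩ := hA.dvd' hK
  have hm1 : #H * m < #H * (3 * j + 2) := by
    rw [← hm, mul_add, mul_left_comm, ← hj]
    omega
  have hm2 : #H * (3 * j) < #H * m := by
    rw [← hm, mul_left_comm, ← hj]
    omega
  have hm3 := Nat.lt_of_mul_lt_mul_left hm1
  have hm4 := Nat.lt_of_mul_lt_mul_left hm2
  have hm5 : m = 3 * j + 1 := by omega
  have E5 : #K = 3 * k + #H := by
    rw [hm, hm5, hj]
    ring
  have E6 := lt_card_of_dvd_ne hH hHK (hA.ne hK hS) (hA.dvd' hK)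
  have E7 : #H ≤ k := by
    have hj0 : j ≠ 0 := by
      rintro rfl
      rw [mul_zero] at hj
      omega
    rw [hj]
    exact Nat.le_mul_of_pos_right _ (Nat.pos_of_ne_zero hj0)
  -- Claim A
  have clA : ∀ g ∈ X, e < #(X ∩ g • H) := by
    intro g hg
    by_contra hsm
    push Not at hsm
    have hgK := hX hg
    set Z := X ∩ g • H with hZ
    have hgZ : g ∈ Z := by
      rw [hZ, mem_inter, mem_smul_finset]
      exact ⟨hg, 1, hH.one, by rw [smul_eq_mul, mul_one]⟩
    have hZT : #S + 1 ≤ #(Z * T S) := by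
      rw [← T_card hF, ← card_smul_finset g (T S)]
      apply card_le_card
      intro x hx
      rw [mem_smul_finset] at hx
      obtain ⟨t, ht, rfl⟩ := hx
      exact mem_mul.2 ⟨g, hgZ, t, ht, rfl⟩
    have hfr := hA.frag.smul hK hgK
    have hsub := submod (T S) X (g • H)
    rw [← hZ, hfr.card, card_smul_finset] at hsub
    have hUZ : #(X ∪ g • H) + #Z = #X + #H := by
      have h0 := card_union_add_card_inter X (g • H)
      rw [card_smul_finset] at h0
      exact h0
    by_cases hU : (X ∪ g • H) * T S = K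
    · have h1 : Disjoint Y (Z * T S) := by
        rw [disjoint_left]
        intro y hy hyZ
        exact disjoint_left.1 hd (mul_subset_mul_right inter_subset_left hyZ) hy
      have h2 : Y ∪ Z * T S ⊆ (g • H) * T S := by
        apply union_subset
        · intro y hy
          have h3 : y ∈ (X ∪ g • H) * T S := by rw [hU]; exact hY hy
          rw [union_mul, mem_union] at h3
          rcases h3 with h3 | h3
          · exact absurd hy (disjoint_left.1 hd h3)
          · exact h3
        · exact mul_subset_mul_right inter_subset_right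
      have h3 := card_le_card h2
      rw [card_union_of_disjoint h1, hfr.card, card_smul_finset] at h3
      omega
    · have h1 := hA.conn (X ∪ g • H) (union_subset hX hfr.le) ⟨g, mem_union_left _ hg⟩ hU
      omega
  -- Claim B
  have clB : ∀ g ∈ X, ∀ r ∈ R, g * r ∈ X * T S := by
    intro g hg r hr
    have h1 := clA g hg
    -- the elements `h⁻¹ r` with `h ∈ H`, `g h ∈ X`
    set I := (X ∩ g • H).image (fun x => x⁻¹ * g * r) with hI
    have hIc : #I = #(X ∩ g • H) := by
      apply card_image_of_injective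
      intro a b hab
      simp only [mul_assoc] at hab
      exact inv_injective (mul_right_cancel hab)
    have hIR : I ⊆ R := by
      intro y hy
      rw [hI, mem_image] at hy
      obtain ⟨x, hx, rfl⟩ := hy
      rw [mem_inter, mem_smul_finset] at hx
      obtain ⟨-, h, hh, rfl⟩ := hx
      have h2 : (g • h)⁻¹ * g = h⁻¹ := by
        rw [smul_eq_mul, mul_inv_rev, inv_mul_cancel_right]
      rw [h2]
      exact hRinv _ (hH.inv h hh) r hr
    have hex : ∃ y ∈ I, y ∈ S := by
      by_contra hno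
      push Not at hno
      have h2 : I ⊆ R \ S := fun y hy => mem_sdiff.2 ⟨hIR hy, hno y hy⟩
      have h3 := card_le_card h2
      omega
    obtain ⟨y, hyI, hyS⟩ := hex
    rw [hI, mem_image] at hyI
    obtain ⟨x, hx, rfl⟩ := hyI
    refine mem_mul.2 ⟨x, (mem_inter.1 hx).1, x⁻¹ * g * r, mem_T_of_mem hyS, ?_⟩
    rw [mul_assoc x⁻¹, mul_inv_cancel_left]
  -- the union of cosets
  set U := X * H with hU
  have hXU : X ⊆ U := by
    intro x hx
    exact mem_mul.2 ⟨x, hx, 1, hH.one, mul_one x⟩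
  have hUK : U ⊆ K := mul_sub hK hX hHK
  have hUr : ∀ h ∈ H, ∀ u ∈ U, u * h ∈ U := by
    intro h hh u hu
    obtain ⟨x, hx, a, ha, rfl⟩ := mem_mul.1 hu
    exact mem_mul.2 ⟨x, hx, a * h, hH.mul a ha h hh, by rw [mul_assoc]⟩
  have hUR : ∀ u ∈ U, ∀ r ∈ R, u * r ∉ Y := by
    intro u hu r hr hY'
    obtain ⟨x, hx, a, ha, rfl⟩ := mem_mul.1 hu
    apply disjoint_left.1 hd _ hY'
    rw [mul_assoc]
    exact clB x hx _ (hRinv a ha r hr)
  have hUcoset : ∀ g ∈ U, g • H ⊆ U := by
    intro g hg x hx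
    rw [mem_smul_finset] at hx
    obtain ⟨h, hh, rfl⟩ := hx
    exact hUr h hh g hg
  obtain ⟨t, ht⟩ := dvd_of_right hH U hUr
  have U1 : k + #H ≤ #U ∧ (#U = k + #H ∨ k + 2 * #H ≤ #U) := by
    have h1 := card_le_card hXU
    have h2 : #H * (3 * j + 1) < #H * (3 * t) := by
      have h3 : #H * (3 * j + 1) = 3 * k + #H := by rw [hj]; ring
      have h4 : #H * (3 * t) = 3 * #U := by rw [ht]; ring
      omega
    have h3 := Nat.lt_of_mul_lt_mul_left h2
    have h4 : j + 1 ≤ t := by omega
    have h5 : k + #H = #H * (j + 1) := by rw [hj]; ring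
    constructor
    · rw [h5, ht]
      exact Nat.mul_le_mul_left _ h4
    · rcases eq_or_lt_of_le h4 with h6 | h6
      · left
        rw [h5, ht, h6]
      · right
        have h7 : k + 2 * #H = #H * (j + 2) := by rw [hj]; ring
        rw [h7, ht]
        exact Nat.mul_le_mul_left _ h6
  -- Claim C
  have C1 : #(Y \ U) + #U + k ≤ #K := by
    have hUT : U * T S ⊆ K := mul_sub hK hUK hTK
    have hYU : ∀ y ∈ Y, y ∉ U → y ∉ U * T S := by
      intro y hy hyU hyUT
      obtain ⟨u, hu, w, hw, rfl⟩ := mem_mul.1 hyUT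
      obtain ⟨x, hx, a, ha, rfl⟩ := mem_mul.1 hu
      have h1 : a * w ∈ H * T S := mem_mul.2 ⟨a, ha, w, hw, rfl⟩
      by_cases h2 : a * w ∈ H
      · apply hyU
        exact mem_mul.2 ⟨x, hx, a * w, h2, by rw [mul_assoc]⟩
      · have h3 : a * w ∈ R := by
          rw [hR]
          exact mem_sdiff.2 ⟨h1, h2⟩
        apply hUR x (hXU hx) _ h3
        rw [← mul_assoc]
        exact hy
    by_cases hUTK : U * T S = K
    · have h1 : Y \ U = ∅ := by
        rw [eq_empty_iff_forall_notMem]
        intro y hy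
        rw [mem_sdiff] at hy
        exact hYU y hy.1 hy.2 (by rw [hUTK]; exact hY hy.1)
      rw [h1, card_empty, zero_add]
      obtain ⟨y, hy⟩ := hYn
      have h2 : Disjoint U (R.image (fun r => y * r⁻¹)) := by
        rw [disjoint_left]
        intro u hu hur
        rw [mem_image] at hur
        obtain ⟨r, hr, rfl⟩ := hur
        apply hUR _ hu r hr
        rw [inv_mul_cancel_right]
        exact hy
      have h3 : #(R.image (fun r => y * r⁻¹)) = k := by
        rw [← hRc]
        apply card_image_of_injective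
        intro a b hab
        exact inv_injective (mul_left_cancel hab)
      rw [← h3, ← card_union_of_disjoint h2]
      apply card_le_card
      apply union_subset hUK
      intro z hz
      rw [mem_image] at hz
      obtain ⟨r, hr, rfl⟩ := hz
      exact hK.mul _ (hY hy) _ (hK.inv _ (hRK hr))
    · have h1 := hA.conn U hUK (hXn.mono hXU) hUTK
      have h2 : Disjoint (Y \ U) (U * T S) := by
        rw [disjoint_left]
        intro y hy
        rw [mem_sdiff] at hy
        exact hYU y hy.1 hy.2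
      have h3 : #(Y \ U) + #(U * T S) ≤ #K := by
        rw [← card_union_of_disjoint h2]
        exact card_le_card (union_subset (sdiff_subset.trans hY) hUT)
      omega
  -- the slack
  set D := U \ (X ∪ Y) with hD
  have hYsplit : #(Y ∩ U) + #(Y \ U) = #Y := card_inter_add_card_sdiff Y U
  have hUsplit : #X + #(Y ∩ U) + #D = #U := by
    have h1 : #(U ∩ (X ∪ Y)) + #D = #U := card_inter_add_card_sdiff U (X ∪ Y)
    have h2 : U ∩ (X ∪ Y) = X ∪ (Y ∩ U) := by
      ext x
      simp only [mem_inter, mem_union]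
      constructor
      · rintro ⟨h, h' | h'⟩
        · exact Or.inl h'
        · exact Or.inr ⟨h', h⟩
      · rintro (h | ⟨h, h'⟩)
        · exact ⟨hXU h, Or.inl h⟩
        · exact ⟨h', Or.inr h⟩
    rw [h2, card_union_of_disjoint (disjoint_of_subset_right inter_subset_left hXY)] at h1
    exact h1
  have D3 : 3 * #D + #H ≤ 6 * s := by omega
  have clP : ∀ g ∈ U, #(X ∩ g • H) + #(Y ∩ g • H) + #(D ∩ g • H) = #H := by
    intro g hg
    rw [← card_smul_finset g H]
    have h1 : Disjoint (X ∩ g • H) (Y ∩ g • H) :=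
      disjoint_of_subset_left inter_subset_left (disjoint_of_subset_right inter_subset_left hXY)
    have h2 : Disjoint ((X ∩ g • H) ∪ (Y ∩ g • H)) (D ∩ g • H) := by
      rw [disjoint_left]
      intro x hx hxD
      rw [mem_inter, hD, mem_sdiff, mem_union] at hxD
      apply hxD.1.2
      rcases mem_union.1 hx with h | h
      · exact Or.inl (mem_inter.1 h).1
      · exact Or.inr (mem_inter.1 h).1
    rw [← card_union_of_disjoint h1, ← card_union_of_disjoint h2]
    congr 1
    ext x
    simp only [mem_union, mem_inter]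
    constructor
    · rintro ((h | h) | h)
      · exact h.2
      · exact h.2
      · exact h.2
    · intro h
      by_cases hx : x ∈ X
      · exact Or.inl (Or.inl ⟨hx, h⟩)
      · by_cases hy : x ∈ Y
        · exact Or.inl (Or.inr ⟨hy, h⟩)
        · right
          refine ⟨?_, h⟩
          rw [hD, mem_sdiff, mem_union]
          exact ⟨hUcoset g hg h, fun h' => h'.elim hx hy⟩
  have hDle : ∀ g : G, #(D ∩ g • H) ≤ #D := fun g => card_le_card inter_subset_left
  -- Claim E
  have clE : ∀ g ∈ U, ¬ (#H < 3 * #(X ∩ g • H) ∧ #H < 3 * #(Y ∩ g • H)) := by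
    rintro g hg ⟨h1, h2⟩
    have h3 := ih (S ∩ H) (g⁻¹ • (X ∩ g • H)) (g⁻¹ • (Y ∩ g • H)) inter_subset_right
      (hF.mono inter_subset_left) (loc_sub g H X) (loc_sub g H Y) (loc_disj hd g)
      (by rwa [card_smul_finset]) (by rwa [card_smul_finset])
    rw [card_smul_finset, card_smul_finset] at h3
    have h4 := clP g hg
    have h5 := hDle g
    omega
  -- slack in a coset which meets `Y`
  have clS : ∀ g ∈ U, g ∈ Y → 6 * s < #H + 6 * #(D ∩ g • H) := by
    intro g hg hgY
    have hYg : (g⁻¹ • (Y ∩ g • H)).Nonempty := by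
      apply Finset.Nonempty.smul_finset
      refine ⟨g, mem_inter.2 ⟨hgY, ?_⟩⟩
      rw [mem_smul_finset]
      exact ⟨1, hH.one, by rw [smul_eq_mul, mul_one]⟩
    have hXg : (g⁻¹ • (X ∩ g • H)).Nonempty := by
      apply Finset.Nonempty.smul_finset
      obtain ⟨x, hx, a, ha, rfl⟩ := mem_mul.1 hg
      refine ⟨x, mem_inter.2 ⟨hx, ?_⟩⟩
      rw [mem_smul_finset]
      exact ⟨a⁻¹, hH.inv a ha, by rw [smul_eq_mul, mul_inv_cancel_right]⟩
    have h3 := slack_bound hH inter_subset_right (hF.mono inter_subset_left)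
      (loc_sub g H X) (loc_sub g H Y) hXg hYg (loc_disj hd g)
    rw [card_smul_finset, card_smul_finset] at h3
    have h4 := clP g hg
    omega
  -- Claim F
  rcases (Y ∩ U).eq_empty_or_nonempty with h0 | ⟨g₁, hg₁⟩
  · rw [h0, card_empty] at hYsplit
    omega
  · rw [mem_inter] at hg₁
    by_cases hall : Y ∩ U ⊆ g₁ • H
    · have h1 : #(Y ∩ U) ≤ #(Y ∩ g₁ • H) :=
        card_le_card fun y hy => mem_inter.2 ⟨(mem_inter.1 hy).1, hall hy⟩
      have h2 := clE g₁ hg₁.2
      have h3 := clP g₁ hg₁.2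
      have h4 : #(X \ (g₁ • H)) + #H ≤ #U := by
        rw [← card_smul_finset g₁ H, ← card_union_of_disjoint sdiff_disjoint]
        exact card_le_card (union_subset (sdiff_subset.trans hXU) (hUcoset g₁ hg₁.2))
      have h5 : #(X ∩ g₁ • H) + #(X \ (g₁ • H)) = #X := card_inter_add_card_sdiff _ _
      omega
    · rw [not_subset] at hall
      obtain ⟨g₂, hg₂, hne⟩ := hall
      rw [mem_inter] at hg₂
      have h1 := clS g₁ hg₁.2 hg₁.1
      have h2 := clS g₂ hg₂.2 hg₂.1
      have h3 : #(D ∩ g₁ • H) + #(D ∩ g₂ • H) ≤ #D := by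
        rw [← card_union_of_disjoint]
        · exact card_le_card (union_subset inter_subset_left inter_subset_left)
        · exact disjoint_of_subset_left inter_subset_right
            (disjoint_of_subset_right inter_subset_right (coset_disj hH hne))
      omega

/-- **The key lemma.** -/
theorem key (n : ℕ) : ∀ K S X Y : Finset G, IsSub K → S ⊆ K → Free S → X ⊆ K → Y ⊆ K →
    Disjoint (X * T S) Y → #K < 3 * #X → #K < 3 * #Y → #K = n →
    3 * #X + 3 * #Y + 6 * #S < 4 * #K := by
  induction n using Nat.strong_induction_on with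
  | _ n ih =>
    intro K S X Y hK hS hF hX hY hd hXc hYc hn
    have hXn : X.Nonempty := by rw [← card_pos]; omega
    have hYn : Y.Nonempty := by rw [← card_pos]; omega
    have hne : X * T S ≠ K := by
      intro h
      obtain ⟨y, hy⟩ := hYn
      exact disjoint_left.1 hd (by rw [h]; exact hY hy) hy
    obtain ⟨k, H, hA | hA⟩ := exists_atom hK hS ⟨X, hX, hXn, hne⟩
    · have hlt : #H < #K :=
        card_lt_card (Finset.ssubset_iff_subset_ne.2 ⟨hA.frag.le, hA.ne hK hS⟩)
      exact key_aux hK hS hF hX hY hd hXc hYc hA fun S' X' Y' h1 h2 h3 h4 h5 h6 h7 =>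
        ih #H (by omega) H S' X' Y' hA.sub h1 h2 h3 h4 h5 h6 h7 rfl
    · have hS' := inv_sub hK hS
      have hlt : #H < #K :=
        card_lt_card (Finset.ssubset_iff_subset_ne.2 ⟨hA.frag.le, hA.ne hK hS'⟩)
      have hd' : Disjoint (Y * T S⁻¹) X := by
        rw [disjoint_left]
        intro x hx hxX
        obtain ⟨y, hy, t, ht, rfl⟩ := mem_mul.1 hx
        rw [← T_inv, mem_inv'] at ht
        apply disjoint_left.1 hd _ hy
        exact mem_mul.2 ⟨y * t, hxX, t⁻¹, ht, mul_inv_cancel_right y t⟩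
      have h := key_aux hK hS' hF.inv hY hX hd' hYc hXc hA fun S' X' Y' h1 h2 h3 h4 h5 h6 h7 =>
        ih #H (by omega) H S' X' Y' hA.sub h1 h2 h3 h4 h5 h6 h7 rfl
      rw [card_inv] at h
      omega

end Pool.Agent.H41CH
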