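import Mathlib
import Pool.Agent.Helper41_CH.Key

/-!
# Two vertex transitive pieces
-/

set_option autoImplicit false

open Finset
open scoped Pointwise

namespace Pool.Agent.H41CH

/-- A digraph (given by its edge relation) is vertex transitive: any vertex is moved to any other
vertex by an automorphism. -/
def VertexTransitive {W : Type*} (E : W → W → Prop) : Prop :=
  ∀ u v : W, ∃ π : Equiv.Perm W, (∀ x y, E x y ↔ E (π x) (π y)) ∧ π u = v

theorem pos_l {a b : ℝ} (ha : 0 ≤ a) (h : 0 < a * b) : 0 < a := by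
  rcases eq_or_lt_of_le ha with h0 | h0
  · rw [← h0, zero_mul] at h
    exact absurd h (lt_irrefl _)
  · exact h0

theorem pos_r {a b : ℝ} (hb : 0 ≤ b) (h : 0 < a * b) : 0 < b := by
  rw [mul_comm] at h
  exact pos_l hb h

section VT

open Classical in
/-- the automorphisms -/
noncomputable def autos {W : Type*} [Fintype W] (E : W → W → Prop) : Finset (Equiv.Perm W) :=
  univ.filter fun π => ∀ x y, E x y ↔ E (π x) (π y)

open Classical in
theorem mem_autos {W : Type*} [Fintype W] {E : W → W → Prop} {π : Equiv.Perm W} :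
    π ∈ autos E ↔ ∀ x y, E x y ↔ E (π x) (π y) := by
  unfold autos
  rw [mem_filter]
  exact ⟨fun h => h.2, fun h => ⟨mem_univ _, h⟩⟩

theorem isSub_autos {W : Type*} [Fintype W] (E : W → W → Prop) : IsSub (autos E) := by
  refine ⟨?_, ?_, ?_⟩
  · rw [mem_autos]
    intro x y
    rfl
  · intro a ha b hb
    rw [mem_autos] at ha hb ⊢
    intro x y
    rw [hb x y, ha (b x) (b y)]
    rfl
  · intro a ha
    rw [mem_autos] at ha ⊢
    intro x y
    rw [ha (a⁻¹ x) (a⁻¹ y)]
    simp

open Classical in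
/-- the number of automorphisms which move the base point into `X` -/
theorem card_fibre {W : Type*} [Fintype W] {E : W → W → Prop} (hV : VertexTransitive E) (b : W)
    (X : Finset W) :
    #((autos E).filter fun π => π b ∈ X) = #X * #((autos E).filter fun π => π b = b) := by
  have h1 : ∀ v : W, #((autos E).filter fun π => π b = v) =
      #((autos E).filter fun π => π b = b) := by
    intro v
    obtain ⟨σ, hσ, hσb⟩ := hV b v
    have hσ' : σ ∈ autos E := mem_autos.2 hσ
    symm
    apply card_bij (fun π _ => σ * π)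
    · intro π hπ
      rw [mem_filter] at hπ ⊢
      refine ⟨(isSub_autos E).mul σ hσ' π hπ.1, ?_⟩
      change σ (π b) = v
      rw [hπ.2, hσb]
    · intro π _ π' _ h
      exact mul_left_cancel h
    · intro π hπ
      rw [mem_filter] at hπ
      refine ⟨σ⁻¹ * π, ?_, mul_inv_cancel_left σ π⟩
      rw [mem_filter]
      refine ⟨(isSub_autos E).mul _ ((isSub_autos E).inv σ hσ') π hπ.1, ?_⟩
      change σ⁻¹ (π b) = b
      rw [hπ.2, ← hσb]
      simp
  have h2 : ∀ π ∈ (autos E).filter (fun π => π b ∈ X), π b ∈ X := fun π hπ => (mem_filter.1 hπ).2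
  rw [card_eq_sum_card_fiberwise h2]
  have h3 : ∀ v ∈ X, #(((autos E).filter fun π => π b ∈ X).filter fun π => π b = v) =
      #((autos E).filter fun π => π b = b) := by
    intro v hv
    rw [← h1 v, filter_filter]
    congr 1
    apply filter_congr
    intro π _
    constructor
    · exact fun h => h.2
    · intro h
      exact ⟨by rw [h]; exact hv, h⟩
  rw [sum_congr rfl h3, sum_const, smul_eq_mul]

variable {W : Type*} [Fintype W] {E : W → W → Prop}

open Classical in
/-- the connection set -/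
noncomputable def conn (E : W → W → Prop) (b : W) : Finset (Equiv.Perm W) :=
  (autos E).filter fun π => π b ∈ (univ.filter fun y => E b y)

theorem mem_conn {b : W} {π : Equiv.Perm W} : π ∈ conn E b ↔ π ∈ autos E ∧ E b (π b) := by
  unfold conn
  simp only [mem_filter, mem_univ, true_and]

theorem free_conn (h1 : ∀ x, ¬ E x x) (h2 : ∀ x y, E x y → ¬ E y x)
    (h3 : ∀ x y z, E x y → E y z → ¬ E z x) (b : W) : Free (conn E b) := by
  refine ⟨?_, ?_, ?_⟩
  · intro h
    exact h1 b (mem_conn.1 h).2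
  · intro π hπ σ hσ hps
    rw [mem_conn] at hπ hσ
    have h5 : E (π b) (π (σ b)) := (mem_autos.1 hπ.1 b (σ b)).1 hσ.2
    have h6 : π (σ b) = b := by
      change (π * σ) b = b
      rw [hps]
      rfl
    rw [h6] at h5
    exact h2 _ _ hπ.2 h5
  · intro π hπ σ hσ τ hτ hpst
    rw [mem_conn] at hπ hσ hτ
    have h5 : E (π b) (π (σ b)) := (mem_autos.1 hπ.1 b (σ b)).1 hσ.2
    have h6 : E (σ b) (σ (τ b)) := (mem_autos.1 hσ.1 b (τ b)).1 hτ.2
    have h7 : E (π (σ b)) (π (σ (τ b))) := (mem_autos.1 hπ.1 _ _).1 h6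
    have h8 : π (σ (τ b)) = b := by
      change (π * σ * τ) b = b
      rw [hpst]
      rfl
    rw [h8] at h7
    exact h3 _ _ _ hπ.2 h5 h7

open Classical in
theorem stab_pos (b : W) : 0 < #((autos E).filter fun π => π b = b) := by
  rw [card_pos]
  exact ⟨1, mem_filter.2 ⟨(isSub_autos E).one, rfl⟩⟩

open Classical in
theorem card_autos (hV : VertexTransitive E) (b : W) :
    #(autos E) = Fintype.card W * #((autos E).filter fun π => π b = b) := by
  have h := card_fibre hV b univ
  rw [card_univ] at h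
  rw [← h]
  congr 1
  ext π
  simp

open Classical in
/-- Hamidoune's theorem for vertex transitive digraphs (triangle case). -/
theorem vt_hamidoune (h1 : ∀ x, ¬ E x x) (h2 : ∀ x y, E x y → ¬ E y x)
    (h3 : ∀ x y z, E x y → E y z → ¬ E z x) (hV : VertexTransitive E) (b : W) :
    3 * #(univ.filter fun y => E b y) < Fintype.card W := by
  have h := hamidoune _ (autos E) (conn E b) (isSub_autos E) (filter_subset _ _)
    (free_conn h1 h2 h3 b) rfl
  rw [card_autos hV b] at h
  unfold conn at h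
  rw [card_fibre hV b] at h
  rw [← mul_assoc] at h
  exact Nat.lt_of_mul_lt_mul_right h

open Classical in
/-- The key lemma for vertex transitive digraphs. -/
theorem vt_key (h1 : ∀ x, ¬ E x x) (h2 : ∀ x y, E x y → ¬ E y x)
    (h3 : ∀ x y z, E x y → E y z → ¬ E z x) (hV : VertexTransitive E) (b : W) (X Y : Finset W)
    (hXY : Disjoint X Y) (hE : ∀ x ∈ X, ∀ y ∈ Y, ¬ E x y) (hX : Fintype.card W < 3 * #X)
    (hY : Fintype.card W < 3 * #Y) :
    3 * #X + 3 * #Y + 6 * #(univ.filter fun y => E b y) < 4 * Fintype.card W := by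
  have hpos := stab_pos (E := E) b
  have hd : Disjoint (((autos E).filter fun π => π b ∈ X) * T (conn E b))
      ((autos E).filter fun π => π b ∈ Y) := by
    rw [disjoint_left]
    intro π hπ hπY
    obtain ⟨σ, hσ, τ, hτ, rfl⟩ := mem_mul.1 hπ
    rw [mem_filter] at hσ hπY
    rcases mem_insert.1 hτ with rfl | hτ
    · rw [mul_one] at hπY
      exact disjoint_left.1 hXY hσ.2 hπY.2
    · rw [mem_conn] at hτ
      exact hE _ hσ.2 _ hπY.2 ((mem_autos.1 hσ.1 b (τ b)).1 hτ.2)
  have h := key _ (autos E) (conn E b) _ _ (isSub_autos E) (filter_subset _ _)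
    (free_conn h1 h2 h3 b) (filter_subset _ _) (filter_subset _ _) hd
    (by
      rw [card_autos hV b, card_fibre hV b X, ← mul_assoc]
      exact Nat.mul_lt_mul_of_pos_right hX hpos)
    (by
      rw [card_autos hV b, card_fibre hV b Y, ← mul_assoc]
      exact Nat.mul_lt_mul_of_pos_right hY hpos) rfl
  unfold conn at h
  rw [card_autos hV b, card_fibre hV b X, card_fibre hV b Y, card_fibre hV b] at h
  set s₀ := #((autos E).filter fun π => π b = b)
  have h' : (3 * #X + 3 * #Y + 6 * #(univ.filter fun y => E b y)) * s₀ <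
      (4 * Fintype.card W) * s₀ := by
    calc (3 * #X + 3 * #Y + 6 * #(univ.filter fun y => E b y)) * s₀ =
        3 * (#X * s₀) + 3 * (#Y * s₀) + 6 * (#(univ.filter fun y => E b y) * s₀) := by ring
      _ < 4 * (Fintype.card W * s₀) := h
      _ = _ := by ring
  exact Nat.lt_of_mul_lt_mul_right h'

end VT

section Two

open Classical

variable {V : Type*} {E : V → V → Prop}

/-- restriction of the two theorems to a subset -/
theorem set_hamidoune (h1 : ∀ x, ¬ E x x) (h2 : ∀ x y, E x y → ¬ E y x)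
    (h3 : ∀ x y z, E x y → E y z → ¬ E z x) (B : Finset V)
    (hV : VertexTransitive (fun x y : {x // x ∈ B} => E x y)) (b : V) (hb : b ∈ B) :
    3 * #(B.filter fun y => E b y) < #B := by
  have h := vt_hamidoune (E := fun x y : {x // x ∈ B} => E x y) (fun x => h1 x)
    (fun x y => h2 x y) (fun x y z => h3 x y z) hV ⟨b, hb⟩
  rw [Fintype.card_coe] at h
  have h4 : #(univ.filter fun y : {x // x ∈ B} => E b y) = #(B.filter fun y => E b y) := by
    rw [← card_map (Function.Embedding.subtype (fun x => x ∈ B))]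
    congr 1
    ext x
    simp only [mem_map, mem_filter, mem_univ, true_and, Function.Embedding.subtype_apply,
      Subtype.exists, exists_and_left, exists_prop, exists_eq_right_right]
    tauto
  rw [← h4]
  exact h

theorem set_key (h1 : ∀ x, ¬ E x x) (h2 : ∀ x y, E x y → ¬ E y x)
    (h3 : ∀ x y z, E x y → E y z → ¬ E z x) (B : Finset V)
    (hV : VertexTransitive (fun x y : {x // x ∈ B} => E x y)) (b : V) (hb : b ∈ B)
    (X Y : Finset V) (hXB : X ⊆ B) (hYB : Y ⊆ B) (hXY : Disjoint X Y)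
    (hE : ∀ x ∈ X, ∀ y ∈ Y, ¬ E x y) (hX : #B < 3 * #X) (hY : #B < 3 * #Y) :
    3 * #X + 3 * #Y + 6 * #(B.filter fun y => E b y) < 4 * #B := by
  have hsub : ∀ Z : Finset V, Z ⊆ B → #(Z.subtype fun x => x ∈ B) = #Z := by
    intro Z hZ
    rw [card_subtype, filter_true_of_mem hZ]
  have h := vt_key (E := fun x y : {x // x ∈ B} => E x y) (fun x => h1 x)
    (fun x y => h2 x y) (fun x y z => h3 x y z) hV ⟨b, hb⟩ (X.subtype fun x => x ∈ B)
    (Y.subtype fun x => x ∈ B) (by
      rw [disjoint_left]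
      intro x hx hy
      rw [mem_subtype] at hx hy
      exact disjoint_left.1 hXY hx hy)
    (by
      intro x hx y hy
      rw [mem_subtype] at hx hy
      exact hE _ hx _ hy)
    (by rw [Fintype.card_coe, hsub X hXB]; exact hX)
    (by rw [Fintype.card_coe, hsub Y hYB]; exact hY)
  rw [Fintype.card_coe, hsub X hXB, hsub Y hYB] at h
  have h4 : #(univ.filter fun y : {x // x ∈ B} => E b y) = #(B.filter fun y => E b y) := by
    rw [← card_map (Function.Embedding.subtype (fun x => x ∈ B))]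
    congr 1
    ext x
    simp only [mem_map, mem_filter, mem_univ, true_and, Function.Embedding.subtype_apply,
      Subtype.exists, exists_and_left, exists_prop, exists_eq_right_right]
    tauto
  rw [← h4]
  exact h

/-- a piece to which the argument applies; `x` bounds the density of out-neighbourhoods -/
structure Good (E : V → V → Prop) (B : Finset V) (x : ℝ) : Prop where
  deg : ∀ b ∈ B, (#(B.filter fun y => E b y) : ℝ) ≤ x * #B
  lt : 3 * x < 1
  iso : ∀ X Y : Finset V, X ⊆ B → Y ⊆ B → Disjoint X Y → (∀ x ∈ X, ∀ y ∈ Y, ¬ E x y) →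
    #B < 3 * #X → #B < 3 * #Y → 3 * (#X : ℝ) + 3 * #Y + 6 * (x * #B) < 4 * #B

/-- the degree inside a vertex transitive piece is constant -/
theorem deg_const (C : Finset V) (hC : VertexTransitive (fun x y : {x // x ∈ C} => E x y)) :
    ∀ c ∈ C, ∀ c' ∈ C, #(C.filter fun y => E c y) = #(C.filter fun y => E c' y) := by
  intro c hc c' hc'
  obtain ⟨π, hπ, hπc⟩ := hC ⟨c, hc⟩ ⟨c', hc'⟩
  apply card_bij (fun y hy => ((π ⟨y, (mem_filter.1 hy).1⟩ : {x // x ∈ C}) : V))
  · intro y hy
    rw [mem_filter]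
    refine ⟨(π ⟨y, (mem_filter.1 hy).1⟩).2, ?_⟩
    have := (hπ ⟨c, hc⟩ ⟨y, (mem_filter.1 hy).1⟩).1 (mem_filter.1 hy).2
    rw [hπc] at this
    exact this
  · intro y hy y' hy' h
    have h' := π.injective (Subtype.ext h)
    exact congrArg Subtype.val h'
  · intro y hy
    rw [mem_filter] at hy
    refine ⟨(π.symm ⟨y, hy.1⟩ : {x // x ∈ C}), ?_, ?_⟩
    · rw [mem_filter]
      refine ⟨(π.symm ⟨y, hy.1⟩).2, ?_⟩
      apply (hπ ⟨c, hc⟩ (π.symm ⟨y, hy.1⟩)).2
      rw [hπc, Equiv.apply_symm_apply]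
      exact hy.2
    · simp

theorem good_of_vt (h1 : ∀ x, ¬ E x x) (h2 : ∀ x y, E x y → ¬ E y x)
    (h3 : ∀ x y z, E x y → E y z → ¬ E z x) (B : Finset V) (hB : B.Nonempty)
    (hV : VertexTransitive (fun x y : {x // x ∈ B} => E x y)) : ∃ x, Good E B x := by
  obtain ⟨b, hb⟩ := hB
  have hBpos : (0 : ℝ) < #B := by
    have : 0 < #B := card_pos.2 ⟨b, hb⟩
    exact_mod_cast this
  have e : (#(B.filter fun y => E b y) / #B : ℝ) * #B = #(B.filter fun y => E b y) := by
    field_simp
  refine ⟨#(B.filter fun y => E b y) / #B, ?_, ?_, ?_⟩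
  · intro c hc
    rw [e, deg_const B hV c hc b hb]
  · have h4 : (3 * #(B.filter fun y => E b y) : ℝ) < #B := by
      exact_mod_cast set_hamidoune h1 h2 h3 B hV b hb
    rw [← e] at h4
    have h5 : (3 * (#(B.filter fun y => E b y) / #B : ℝ)) * #B < 1 * #B := by linarith
    exact lt_of_mul_lt_mul_right h5 hBpos.le
  · intro X Y hX hY hXY hE hXc hYc
    rw [e]
    exact_mod_cast set_key h1 h2 h3 B hV b hb X Y hX hY hXY hE hXc hYc

theorem good_of_sparse (B : Finset V) (hB : B.Nonempty)
    (hs : ∀ b ∈ B, 6 * #(B.filter fun y => E b y) < #B) : ∃ x, Good E B x := by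
  obtain ⟨b, hb, hmax⟩ := exists_max_image B (fun b => #(B.filter fun y => E b y)) hB
  have hBpos : (0 : ℝ) < #B := by
    have : 0 < #B := card_pos.2 ⟨b, hb⟩
    exact_mod_cast this
  have e : (#(B.filter fun y => E b y) / #B : ℝ) * #B = #(B.filter fun y => E b y) := by
    field_simp
  have h4 : (6 * #(B.filter fun y => E b y) : ℝ) < #B := by
    exact_mod_cast hs b hb
  refine ⟨#(B.filter fun y => E b y) / #B, ?_, ?_, ?_⟩
  · intro c hc
    rw [e]
    exact_mod_cast hmax c hc
  · rw [← e] at h4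
    have h5 : (6 * (#(B.filter fun y => E b y) / #B : ℝ)) * #B < 1 * #B := by linarith
    have h6 := lt_of_mul_lt_mul_right h5 hBpos.le
    have h7 : (0 : ℝ) ≤ #(B.filter fun y => E b y) / #B := by positivity
    linarith
  · intro X Y hX hY hXY _ _ _
    rw [e]
    have h5 : #X + #Y ≤ #B := by
      rw [← card_union_of_disjoint hXY]
      exact card_le_card (union_subset hX hY)
    have h6 : (#X + #Y : ℝ) ≤ #B := by exact_mod_cast h5
    linarith

/-- One half of the argument: the inequality obtained in the piece `B`. -/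
theorem half (h2 : ∀ x y, E x y → ¬ E y x)
    (h3 : ∀ x y z, E x y → E y z → ¬ E z x) (A B : Finset V) (hA : A.Nonempty)
    (hBn : B.Nonempty) (w : ℝ) (hB : Good E B w) (y z : ℝ)
    (hy : ∀ v ∈ A, y * #B ≤ #(B.filter fun u => E v u))
    (hz : ∀ u ∈ B, z * #A ≤ #(A.filter fun v => E u v)) (hy3 : 1 < 3 * y) (hz3 : 1 < 3 * z) :
    3 * y + 3 * z + 6 * w < 4 := by
  have hBpos : (0 : ℝ) < #B := by
    have : 0 < #B := card_pos.2 hBn
    exact_mod_cast this
  -- double counting
  have hcount : ∑ v ∈ A, #(B.filter fun u => E u v) = ∑ u ∈ B, #(A.filter fun v => E u v) := by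
    simp only [card_filter]
    rw [sum_comm]
  have hsum : ∑ v ∈ A, (z * #B : ℝ) ≤ ∑ v ∈ A, (#(B.filter fun u => E u v) : ℝ) := by
    have h4 : ∑ u ∈ B, (z * #A : ℝ) ≤ ∑ u ∈ B, (#(A.filter fun v => E u v) : ℝ) :=
      sum_le_sum hz
    have h5 : (∑ v ∈ A, (#(B.filter fun u => E u v) : ℝ)) =
        ∑ u ∈ B, (#(A.filter fun v => E u v) : ℝ) := by exact_mod_cast hcount
    rw [h5]
    refine le_trans (le_of_eq ?_) h4
    rw [sum_const, sum_const, nsmul_eq_mul, nsmul_eq_mul]
    ring
  obtain ⟨v, hv, hvz⟩ := exists_le_of_sum_le hA hsum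
  set X := B.filter fun u => E v u with hX
  set Y := B.filter fun u => E u v with hY
  have hXc : y * #B ≤ #X := hy v hv
  have hXY : Disjoint X Y := by
    rw [disjoint_left]
    intro u hu hu'
    exact h2 _ _ (mem_filter.1 hu).2 (mem_filter.1 hu').2
  have hE : ∀ x ∈ X, ∀ y ∈ Y, ¬ E x y := by
    intro x hx y' hy' hxy
    exact h3 _ _ _ (mem_filter.1 hx).2 hxy (mem_filter.1 hy').2
  have hX3 : #B < 3 * #X := by
    have : (#B : ℝ) < 3 * #X := by nlinarith
    exact_mod_cast this
  have hY3 : #B < 3 * #Y := by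
    have : (#B : ℝ) < 3 * #Y := by nlinarith
    exact_mod_cast this
  have h' := hB.iso X Y (filter_subset _ _) (filter_subset _ _) hXY hE hX3 hY3
  have h8 : (3 * y + 3 * z + 6 * w) * #B < 4 * #B := by
    calc (3 * y + 3 * z + 6 * w) * #B = 3 * (y * #B) + 3 * (z * #B) + 6 * (w * #B) := by ring
      _ ≤ 3 * #X + 3 * #Y + 6 * (w * #B) := by linarith
      _ < 4 * #B := h'
  exact lt_of_mul_lt_mul_right h8 hBpos.le

/-- the final inequality -/
theorem arith (P Q x y z w : ℝ) (hP : 0 < P) (hQ : 0 < Q) (hx : 3 * x < 1) (hw : 3 * w < 1)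
    (h1 : (P + Q) / 3 ≤ P * x + Q * y) (h2 : (P + Q) / 3 ≤ Q * w + P * z)
    (h3 : 3 * y + 3 * z + 6 * w < 4) (h4 : 3 * y + 3 * z + 6 * x < 4) : False := by
  have e1 : P * (1 / 3 - x) ≤ Q * (y - 1 / 3) := by linarith
  have e2 : Q * (1 / 3 - w) ≤ P * (z - 1 / 3) := by linarith
  have hxi : 0 < 1 / 3 - x := by linarith
  have hom : 0 < 1 / 3 - w := by linarith
  have hy : 0 < y - 1 / 3 := by
    have : 0 < Q * (y - 1 / 3) := lt_of_lt_of_le (mul_pos hP hxi) e1
    exact (mul_pos_iff_of_pos_left hQ).1 this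
  have hz : 0 < z - 1 / 3 := by
    have : 0 < P * (z - 1 / 3) := lt_of_lt_of_le (mul_pos hQ hom) e2
    exact (mul_pos_iff_of_pos_left hP).1 this
  set ε := y - 1 / 3
  set η := z - 1 / 3
  have h5 : (ε + η) / 2 < 1 / 3 - x := by
    simp only [ε, η]; linarith
  have h6 : (ε + η) / 2 < 1 / 3 - w := by
    simp only [ε, η]; linarith
  have h7 : P * (1 / 3 - x) * (Q * (1 / 3 - w)) ≤ Q * ε * (P * η) :=
    mul_le_mul e1 e2 (mul_pos hQ hom).le (mul_pos hQ hy).le
  have h8 : (1 / 3 - x) * (1 / 3 - w) ≤ ε * η := by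
    have h9 : (P * Q) * ((1 / 3 - x) * (1 / 3 - w)) ≤ (P * Q) * (ε * η) := by
      calc (P * Q) * ((1 / 3 - x) * (1 / 3 - w)) = P * (1 / 3 - x) * (Q * (1 / 3 - w)) := by ring
        _ ≤ Q * ε * (P * η) := h7
        _ = _ := by ring
    exact le_of_mul_le_mul_left h9 (mul_pos hP hQ)
  have h10 : (ε + η) / 2 * ((ε + η) / 2) < (1 / 3 - x) * (1 / 3 - w) :=
    mul_lt_mul'' h5 h6 (by positivity) (by positivity)
  nlinarith [sq_nonneg (ε - η)]

/-- a piece of nonzero weight cannot carry the whole degree -/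
theorem degenerate (A B : Finset V) (p q : ℝ) (hq : 0 ≤ q) (hPA : p * #A = 0)
    (hpos : 0 < p * #A + q * #B) (hB : B.Nonempty → ∃ w, Good E B w)
    (hdeg : ∀ x, x ∈ B → (p * #A + q * #B) / 3 ≤
      p * #(A.filter fun y => E x y) + q * #(B.filter fun y => E x y)) : False := by
  rw [hPA, zero_add] at hpos
  have hqpos : 0 < q := pos_l hq hpos
  have hBn : B.Nonempty := by
    rw [← card_pos]
    by_contra h
    have h0 : #B = 0 := by omega
    rw [h0] at hpos
    simp at hpos
  obtain ⟨w, hw⟩ := hB hBn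
  obtain ⟨b, hb⟩ := hBn
  have h4 := hdeg b hb
  have h5 := hw.deg b hb
  have h6 : p * #(A.filter fun y => E b y) = 0 := by
    rcases mul_eq_zero.1 hPA with h | h
    · rw [h, zero_mul]
    · have h7 : #A = 0 := by exact_mod_cast h
      have h8 : #(A.filter fun y => E b y) = 0 := by
        have := card_filter_le A (fun y => E b y)
        omega
      rw [h8]
      simp
  rw [hPA, h6, zero_add, zero_add] at h4
  have h7 : q * #(B.filter fun y => E b y) ≤ q * (w * #B) := mul_le_mul_of_nonneg_left h5 hq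
  have h8 : (q * #B) * (3 * w) < (q * #B) * 1 := mul_lt_mul_of_pos_left hw.lt hpos
  linarith

/-- The theorem, in finset form. -/
theorem two_pieces (h2 : ∀ x y, E x y → ¬ E y x)
    (h3 : ∀ x y z, E x y → E y z → ¬ E z x) (A B : Finset V)
    (gA : A.Nonempty → ∃ x, Good E A x) (gB : B.Nonempty → ∃ w, Good E B w) (p q : ℝ) (hp : 0 ≤ p)
    (hq : 0 ≤ q) (hpos : 0 < p * #A + q * #B)
    (hdeg : ∀ x, x ∈ A ∨ x ∈ B → (p * #A + q * #B) / 3 ≤
      p * #(A.filter fun y => E x y) + q * #(B.filter fun y => E x y)) : False := by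
  have hA0 : (0 : ℝ) ≤ #A := Nat.cast_nonneg _
  have hB0 : (0 : ℝ) ≤ #B := Nat.cast_nonneg _
  -- degenerate cases
  rcases eq_or_lt_of_le (mul_nonneg hp hA0) with hPA | hPA
  · exact degenerate A B p q hq hPA.symm hpos gB fun x hx => hdeg x (Or.inr hx)
  rcases eq_or_lt_of_le (mul_nonneg hq hB0) with hQB | hQB
  · refine degenerate B A q p hp hQB.symm (by linarith) gA fun x hx => ?_
    have := hdeg x (Or.inl hx)
    linarith
  have hA1 : (0 : ℝ) < #A := pos_r hA0 hPA
  have hB1 : (0 : ℝ) < #B := pos_r hB0 hQB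
  have hAn : A.Nonempty := by
    rw [← card_pos]
    exact_mod_cast hA1
  have hBn : B.Nonempty := by
    rw [← card_pos]
    exact_mod_cast hB1
  obtain ⟨x, hx⟩ := gA hAn
  obtain ⟨w, hw⟩ := gB hBn
  have hx3 := hx.lt
  have hw3 := hw.lt
  obtain ⟨a, ha, hamin⟩ := exists_min_image A (fun v => #(B.filter fun u => E v u)) hAn
  obtain ⟨b, hb, hbmin⟩ := exists_min_image B (fun u => #(A.filter fun v => E u v)) hBn
  set y := (#(B.filter fun u => E a u) / #B : ℝ) with hy
  set z := (#(A.filter fun v => E b v) / #A : ℝ) with hz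
  have ey : y * #B = #(B.filter fun u => E a u) := by rw [hy]; field_simp
  have ez : z * #A = #(A.filter fun v => E b v) := by rw [hz]; field_simp
  have d1 : (p * #A + q * #B) / 3 ≤ (p * #A) * x + (q * #B) * y := by
    have h4 := hdeg a (Or.inl ha)
    have h5 : p * #(A.filter fun y => E a y) ≤ p * (x * #A) :=
      mul_le_mul_of_nonneg_left (hx.deg a ha) hp
    rw [← ey] at h4
    linarith
  have d2 : (p * #A + q * #B) / 3 ≤ (q * #B) * w + (p * #A) * z := by
    have h4 := hdeg b (Or.inr hb)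
    have h5 : q * #(B.filter fun y => E b y) ≤ q * (w * #B) :=
      mul_le_mul_of_nonneg_left (hw.deg b hb) hq
    rw [← ez] at h4
    linarith
  have hy3 : 1 < 3 * y := by
    have h4 : (p * #A) * x < (p * #A) * (1 / 3) := mul_lt_mul_of_pos_left (by linarith) hPA
    have h5 : (q * #B) * (1 / 3) < (q * #B) * y := by linarith
    have h6 := lt_of_mul_lt_mul_left h5 hQB.le
    linarith
  have hz3 : 1 < 3 * z := by
    have h4 : (q * #B) * w < (q * #B) * (1 / 3) := mul_lt_mul_of_pos_left (by linarith) hQB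
    have h5 : (p * #A) * (1 / 3) < (p * #A) * z := by linarith
    have h6 := lt_of_mul_lt_mul_left h5 hPA.le
    linarith
  have hyB : ∀ v ∈ A, y * #B ≤ #(B.filter fun u => E v u) := by
    intro v hv
    rw [ey]
    exact_mod_cast hamin v hv
  have hzA : ∀ u ∈ B, z * #A ≤ #(A.filter fun v => E u v) := by
    intro u hu
    rw [ez]
    exact_mod_cast hbmin u hu
  have k1 := half h2 h3 A B hAn hBn w hw y z hyB hzA hy3 hz3
  have k2 := half h2 h3 B A hBn hAn x hx z y hzA hyB hz3 hy3
  exact arith (p * #A) (q * #B) x y z w hPA hQB hx3 hw3 d1 d2 k1 (by linarith)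

end Two

end Pool.Agent.H41CH
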